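import Mathlib
import Pool.Agent.H19M.Ext

set_option autoImplicit false

/-!
MP_c4a55f_al, Q1 (partial): the product of an arbitrary family of minimal topological groups is
minimal if every factor is a Polish group (second countable and Raikov complete), or has compact
centre `Z` and minimal quotient by `Z`, or is obtained from such groups by arbitrary products and
by extensions of compact normal subgroups.
-/

open Topology

namespace Pool.Agent.Results.MP_c4a55f_al.PolishProduct

universe u v w

/-- A Hausdorff topological group `(G, t)` is minimal if every Hausdorff group topology `s` on `G`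
which is coarser than `t` (in Lean: `t ≤ s`) is equal to `t`. -/
structure MinimalGroup (G : Type u) [Group G] [t : TopologicalSpace G] : Prop where
  isTopologicalGroup : IsTopologicalGroup G
  t2 : T2Space G
  minimal : ∀ s : TopologicalSpace G, @IsTopologicalGroup G s _ → @T2Space G s → t ≤ s → s = t

/-- Raikov completeness: every filter that is Cauchy for the two-sided uniformity, with basic
entourages `{(x, y) | x⁻¹ y ∈ U and y x⁻¹ ∈ U}`, converges. -/
def RaikovComplete (G : Type u) [Group G] [TopologicalSpace G] : Prop :=
  ∀ F : Filter G, F.NeBot →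
    (∀ U ∈ 𝓝 (1 : G), ∃ A ∈ F, ∀ x ∈ A, ∀ y ∈ A, x⁻¹ * y ∈ U ∧ y * x⁻¹ ∈ U) →
    ∃ z : G, F ≤ 𝓝 z

/-- The least class of groups which contains the Polish minimal groups and the minimal groups with
compact centre and minimal central quotient, all products of its members, and all Hausdorff
topological groups `G` with a compact normal subgroup `C` such that `G ⧸ C` is in the class. -/
inductive Good : (G : Type u) → [Group G] → [TopologicalSpace G] → Prop
  | polish (G : Type u) [Group G] [TopologicalSpace G] : MinimalGroup G →
      SecondCountableTopology G → RaikovComplete G → Good G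
  | compactCentre (G : Type u) [Group G] [TopologicalSpace G] : MinimalGroup G →
      IsCompact (Subgroup.center G : Set G) → MinimalGroup (G ⧸ Subgroup.center G) → Good G
  | product (I : Type u) (G : I → Type u) [∀ i, Group (G i)] [∀ i, TopologicalSpace (G i)] :
      (∀ i, Good (G i)) → Good (∀ i, G i)
  | extension (G : Type u) [Group G] [TopologicalSpace G] (C : Subgroup G) [C.Normal] :
      IsTopologicalGroup G → T2Space G → IsCompact (C : Set G) → Good (G ⧸ C) → Good G

theorem good_cv (G : Type u) [Group G] [TopologicalSpace G] (h : Good G) :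
    IsTopologicalGroup G ∧ T2Space G ∧ Pool.Agent.H19M.Ext.Cv.{u, w} G := by
  induction h with
  | polish G hmin hsc hrc =>
    have h1 := hmin.isTopologicalGroup
    have h2 := hmin.t2
    exact ⟨h1, h2, Pool.Agent.H19M.Ext.cv_star hmin.minimal
      (Pool.Agent.H19M.star4_of Pool.Agent.H19M.t_NC2 G hrc hmin.minimal)⟩
  | compactCentre G hmin hc hq =>
    have h1 := hmin.isTopologicalGroup
    exact ⟨h1, hmin.t2, Pool.Agent.H19M.Ext.cv_centre hc hq.minimal⟩
  | product I G _ ih =>
    have h1 : ∀ i, IsTopologicalGroup (G i) := fun i => (ih i).1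
    have h2 : ∀ i, T2Space (G i) := fun i => (ih i).2.1
    exact ⟨inferInstance, inferInstance,
      Pool.Agent.H19M.Ext.cv_prod.{u, u, w} G fun i => (ih i).2.2⟩
  | extension G C htg ht2 hc _ ih =>
    exact ⟨htg, ht2, Pool.Agent.H19M.Ext.cv_ext C hc ih.2.2⟩

/-- Arbitrary products of groups of the class are minimal. -/
theorem result {I : Type v} {G : I → Type u} [∀ i, Group (G i)] [∀ i, TopologicalSpace (G i)]
    (h : ∀ i, Good (G i)) : MinimalGroup (∀ i, G i) := by
  have h1 : ∀ i, IsTopologicalGroup (G i) := fun i => (good_cv.{u, u} (G i) (h i)).1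
  have h2 : ∀ i, T2Space (G i) := fun i => (good_cv.{u, u} (G i) (h i)).2.1
  exact ⟨inferInstance, inferInstance, Pool.Agent.H19M.Ext.min_prod.{u, v} G
    fun i => (good_cv.{u, max u v} (G i) (h i)).2.2⟩

end Pool.Agent.Results.MP_c4a55f_al.PolishProduct
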